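import Pool.Agent.K1H5.PP.Stm

set_option autoImplicit false

/-!
Perfect projective modules over integral group rings: the pieces VM, VD, VU.
-/

namespace Pool.Agent.K1H40.PP

open MonoidAlgebra Pool.Agent.K1H5.PP

universe u

theorem t_VM : S_VM.{u} := by
  classical
  intro G _ K L a hKL hK
  unfold Van
  intro g
  have hmap : ∀ x ∈ a.coeff.support.filter (fun h => h * g⁻¹ ∈ L),
      (Quotient.mk (QuotientGroup.rightRel K) x) ∈
        (a.coeff.support.filter (fun h => h * g⁻¹ ∈ L)).image (Quotient.mk (QuotientGroup.rightRel K)) :=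
    fun x hx => Finset.mem_image_of_mem _ hx
  have h1 := Finset.sum_fiberwise_of_maps_to hmap (fun h => a.coeff h)
  refine Eq.trans ?_ (h1.symm.trans ?_)
  · apply Finset.sum_congr _ (fun _ _ => rfl)
    ext h
    simp only [Finset.mem_filter]
  · apply Finset.sum_eq_zero
    intro q hq
    rw [Finset.mem_image] at hq
    obtain ⟨h0, hh0, rfl⟩ := hq
    rw [Finset.mem_filter] at hh0
    refine Eq.trans ?_ (hK h0)
    apply Finset.sum_congr _ (fun _ _ => rfl)
    ext h
    simp only [Finset.mem_filter]
    constructor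
    · rintro ⟨⟨h2, -⟩, h3⟩
      refine ⟨h2, ?_⟩
      have h4 := (QuotientGroup.rightRel_apply.1 (Quotient.exact h3.symm))
      exact h4
    · rintro ⟨h2, h3⟩
      refine ⟨⟨h2, ?_⟩, ?_⟩
      · have : h * g⁻¹ = (h * h0⁻¹) * (h0 * g⁻¹) := by group
        rw [this]
        exact L.mul_mem (hKL h3) hh0.2
      · exact (Quotient.sound (QuotientGroup.rightRel_apply.2 h3)).symm

/-- two subgroups which agree on the quotients of the support -/
lemma van_cmp {G : Type u} [Group G] {K D : Subgroup G} {a : MonoidAlgebra ℤ G}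
    (h : ∀ x ∈ a.coeff.support, ∀ y ∈ a.coeff.support, x * y⁻¹ ∈ K ↔ x * y⁻¹ ∈ D) (hK : Van K a) :
    Van D a := by
  classical
  intro g
  by_cases hg : ∃ h0 ∈ a.coeff.support, h0 * g⁻¹ ∈ D
  · obtain ⟨h0, hs, hd⟩ := hg
    refine Eq.trans ?_ (hK h0)
    apply Finset.sum_congr _ (fun _ _ => rfl)
    ext x
    simp only [Finset.mem_filter]
    constructor
    · rintro ⟨h1, h2⟩
      refine ⟨h1, (h x h1 h0 hs).2 ?_⟩
      have : x * h0⁻¹ = (x * g⁻¹) * (h0 * g⁻¹)⁻¹ := by group
      rw [this]
      exact D.mul_mem h2 (D.inv_mem hd)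
    · rintro ⟨h1, h2⟩
      refine ⟨h1, ?_⟩
      have h3 := (h x h1 h0 hs).1 h2
      have : x * g⁻¹ = (x * h0⁻¹) * (h0 * g⁻¹) := by group
      rw [this]
      exact D.mul_mem h3 hd
  · push Not at hg
    apply Finset.sum_eq_zero
    intro x hx
    rw [Finset.mem_filter] at hx
    exact absurd hx.2 (hg x hx.1)

theorem t_VD : S_VD.{u} := by
  classical
  intro G _ C hC hch a ha
  have key : ∀ T : Finset G, ∃ K ∈ C, ∀ t ∈ T, t ∈ K → t ∈ sInf C := by
    intro T
    induction T using Finset.induction_on with
    | empty =>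
        obtain ⟨K, hK⟩ := hC
        exact ⟨K, hK, by simp⟩
    | insert t T _ ih =>
        obtain ⟨K1, hK1, h1⟩ := ih
        by_cases ht : t ∈ sInf C
        · refine ⟨K1, hK1, ?_⟩
          intro s hs hsK
          rcases Finset.mem_insert.1 hs with rfl | hs
          · exact ht
          · exact h1 s hs hsK
        · rw [Subgroup.mem_sInf] at ht
          push Not at ht
          obtain ⟨K2, hK2, h2⟩ := ht
          rcases hch.total hK1 hK2 with hle | hle
          · refine ⟨K1, hK1, ?_⟩
            intro s hs hsK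
            rcases Finset.mem_insert.1 hs with rfl | hs
            · exact absurd (hle hsK) h2
            · exact h1 s hs hsK
          · refine ⟨K2, hK2, ?_⟩
            intro s hs hsK
            rcases Finset.mem_insert.1 hs with rfl | hs
            · exact absurd hsK h2
            · exact h1 s hs (hle hsK)
  obtain ⟨K, hK, h⟩ := key ((a.coeff.support ×ˢ a.coeff.support).image (fun p => p.1 * p.2⁻¹))
  refine van_cmp (K := K) ?_ (ha K hK)
  intro x hx y hy
  constructor
  · intro hxy
    exact h _ (Finset.mem_image.2 ⟨(x, y), Finset.mem_product.2 ⟨hx, hy⟩, rfl⟩) hxy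
  · intro hxy
    exact (Subgroup.mem_sInf.1 hxy) K hK

theorem t_VU : S_VU.{u} := by
  classical
  intro G _ C hC hch a ha
  have key : ∀ T : Finset G, ∃ K ∈ C, ∀ t ∈ T, t ∈ sSup C → t ∈ K := by
    intro T
    induction T using Finset.induction_on with
    | empty =>
        obtain ⟨K, hK⟩ := hC
        exact ⟨K, hK, by simp⟩
    | insert t T _ ih =>
        obtain ⟨K1, hK1, h1⟩ := ih
        by_cases ht : t ∈ sSup C
        · obtain ⟨K2, hK2, h2⟩ := (Subgroup.mem_sSup_of_directedOn hC hch.directedOn).1 ht
          rcases hch.total hK1 hK2 with hle | hle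
          · refine ⟨K2, hK2, ?_⟩
            intro s hs hsK
            rcases Finset.mem_insert.1 hs with rfl | hs
            · exact h2
            · exact hle (h1 s hs hsK)
          · refine ⟨K1, hK1, ?_⟩
            intro s hs hsK
            rcases Finset.mem_insert.1 hs with rfl | hs
            · exact hle h2
            · exact h1 s hs hsK
        · refine ⟨K1, hK1, ?_⟩
          intro s hs hsK
          rcases Finset.mem_insert.1 hs with rfl | hs
          · exact absurd hsK ht
          · exact h1 s hs hsK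
  obtain ⟨K, hK, h⟩ := key ((a.coeff.support ×ˢ a.coeff.support).image (fun p => p.1 * p.2⁻¹))
  refine ⟨K, hK, van_cmp (K := sSup C) ?_ ha⟩
  intro x hx y hy
  constructor
  · intro hxy
    exact h _ (Finset.mem_image.2 ⟨(x, y), Finset.mem_product.2 ⟨hx, hy⟩, rfl⟩) hxy
  · intro hxy
    exact (le_sSup hK) hxy

end Pool.Agent.K1H40.PP
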